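import Mathlib

set_option autoImplicit false

open Set

namespace Pool.Agent.Results.MP_ea58a7_an.Trans

/-- The map `x ↦ βx + α mod 1`. -/
noncomputable def T (α β x : ℝ) : ℝ := Int.fract (β * x + α)

structure Sys (β q : ℝ) (K : Set ℝ) : Prop where
  b1 : 1 < β
  b2 : β ^ 2 ≤ 2
  q0 : 0 ≤ q
  q1 : β * q ≤ 1
  q2 : β * (1 + q) - 1 ≤ 1 + q
  cp : IsCompact K
  L : ∀ x y, x < y → β * y ≤ 1 + q → Icc x y ⊆ K → Icc (β * x) (β * y) ⊆ K
  R : ∀ x y, x < y → 1 + q ≤ β * x → Icc x y ⊆ K → Icc (β * x - 1) (β * y - 1) ⊆ K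

variable {β q : ℝ} {K : Set ℝ}

lemma uni {a b c d : ℝ} (h1 : Icc a b ⊆ K) (h2 : Icc c d ⊆ K) (h : c ≤ b) : Icc a d ⊆ K := by
  intro z hz
  rcases le_total z b with h3 | h3
  exacts [h1 ⟨hz.1, h3⟩, h2 ⟨h.trans h3, hz.2⟩]

lemma run (S : Sys β q K) {x y : ℝ} (hxy : x < y) (hy : 0 < y) (h : Icc x y ⊆ K) :
    ∃ j : ℕ, Icc (β ^ j * x) (β ^ j * y) ⊆ K ∧ 1 + q ≤ β * (β ^ j * y) ∧
      (j = 0 ∨ β ^ j * y < 1 + q) := by
  have b0 : 0 < β := by linarith [S.b1]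
  have ex : ∃ j : ℕ, 1 + q ≤ β * (β ^ j * y) := by
    obtain ⟨n, hn⟩ := pow_unbounded_of_one_lt ((1 + q) / (β * y)) S.b1
    rw [div_lt_iff₀ (by positivity)] at hn
    exact ⟨n, by linarith⟩
  have key : ∀ j ≤ Nat.find ex, Icc (β ^ j * x) (β ^ j * y) ⊆ K := by
    intro j
    induction j with
    | zero => intro _; simpa using h
    | succ j ih =>
      intro hj
      have := S.L _ _ (mul_lt_mul_of_pos_left hxy (pow_pos b0 j))
        (not_le.1 (Nat.find_min ex (by omega : j < Nat.find ex))).le (ih (by omega))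
      rwa [← mul_assoc, ← mul_assoc, ← pow_succ'] at this
  refine ⟨_, key _ le_rfl, Nat.find_spec ex, ?_⟩
  rcases Nat.eq_zero_or_pos (Nat.find ex) with h0 | h0
  · exact Or.inl h0
  · have := not_le.1 (Nat.find_min ex (by omega : Nat.find ex - 1 < Nat.find ex))
    rw [← mul_assoc, ← pow_succ', show Nat.find ex - 1 + 1 = Nat.find ex by omega] at this
    exact Or.inr this

lemma cover (S : Sys β q K) {r : ℝ} (h1 : q < r) (h2 : β * q ≤ r) (h : Icc q r ⊆ K) :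
    Icc q (1 + q) ⊆ K := by
  have b0 : 0 < β := by linarith [S.b1]
  have r0 : 0 < r := S.q0.trans_lt h1
  have key : ∀ n : ℕ, Icc q (min (β ^ n * r) (1 + q)) ⊆ K := by
    intro n
    induction n with
    | zero => exact (Icc_subset_Icc_right (by simp)).trans h
    | succ n ih =>
      have p1 : r ≤ β ^ n * r := le_mul_of_one_le_left r0.le (one_le_pow₀ S.b1.le)
      have p2 : β * ((1 + q) / β) = 1 + q := mul_div_cancel₀ _ b0.ne'
      have p3 : q < (1 + q) / β := by rw [lt_div_iff₀ b0]; nlinarith [S.q1, S.q0, S.q2, S.b1]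
      have p4 : (1 + q) / β ≤ 1 + q := div_le_self (by linarith [S.q0]) S.b1.le
      have := S.L q (min (β ^ n * r) ((1 + q) / β)) (lt_min (by linarith) p3)
        (by rw [← p2]; exact mul_le_mul_of_nonneg_left (by rw [p2]; exact min_le_right _ _) b0.le)
        ((Icc_subset_Icc_right (min_le_min_left _ p4)).trans ih)
      rw [mul_min_of_nonneg _ _ b0.le, p2, ← mul_assoc, ← pow_succ'] at this
      exact uni h this h2
  obtain ⟨n, hn⟩ := pow_unbounded_of_one_lt ((1 + q) / r) S.b1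
  rw [div_lt_iff₀ r0] at hn
  simpa only [min_eq_right hn.le] using key n

lemma maxi (hK : IsCompact K) {x y : ℝ} (hxy : x < y) (h : Icc x y ⊆ K) :
    ∃ s t, s < t ∧ Icc s t ⊆ K ∧ ∀ a b, a ≤ b → Icc a b ⊆ K → b - a ≤ t - s := by
  have hc : IsCompact {p : ℝ × ℝ | p ∈ K ×ˢ K ∧ p.1 ≤ p.2 ∧
      ∀ l ∈ Icc (0 : ℝ) 1, p.1 + l * (p.2 - p.1) ∈ K} := by
    refine (hK.prod hK).inter_right ((isClosed_le continuous_fst continuous_snd).inter ?_)
    have : IsClosed {p : ℝ × ℝ | ∀ l ∈ Icc (0 : ℝ) 1, p.1 + l * (p.2 - p.1) ∈ K} := by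
      simp only [setOf_forall]
      exact isClosed_iInter fun l => isClosed_iInter fun _ => hK.isClosed.preimage (by fun_prop)
    exact this
  have mem : ∀ a b, a ≤ b → Icc a b ⊆ K → (a, b) ∈ {p : ℝ × ℝ | p ∈ K ×ˢ K ∧ p.1 ≤ p.2 ∧
      ∀ l ∈ Icc (0 : ℝ) 1, p.1 + l * (p.2 - p.1) ∈ K} := fun a b hab h =>
    ⟨⟨h (left_mem_Icc.2 hab), h (right_mem_Icc.2 hab)⟩, hab, fun l hl =>
      h ⟨by nlinarith [hl.1], by nlinarith [hl.2]⟩⟩
  obtain ⟨⟨s, t⟩, hp, hm⟩ := hc.exists_isMaxOn ⟨_, mem x y hxy.le h⟩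
    (continuous_snd.sub continuous_fst).continuousOn
  have hst : s < t := by
    have : y - x ≤ t - s := hm (mem x y hxy.le h)
    linarith
  refine ⟨s, t, hst, fun z hz => ?_, fun a b hab h => hm (mem a b hab h)⟩
  have := hp.2.2 ((z - s) / (t - s)) ⟨div_nonneg (sub_nonneg.2 hz.1) (sub_pos.2 hst).le,
    (div_le_one (sub_pos.2 hst)).2 (by linarith [hz.2])⟩
  simp only at this
  rwa [div_mul_cancel₀ _ (sub_pos.2 hst).ne', add_sub_cancel] at this

lemma fin {a b p r : ℝ} (b0 : 0 < b) (h1 : p * b ≤ a) (h2 : r * a ≤ b) (h3 : 0 ≤ r) :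
    p * r ≤ 1 := by
  refine le_of_mul_le_mul_right ?_ b0
  linarith [mul_le_mul_of_nonneg_left h1 h3]

lemma RJ {a b P Q : ℝ} (b1 : 1 < β) (q0 : 0 ≤ q) (q1 : β * q ≤ 1) (b0 : 0 < b)
    (h1 : (β * P - 1) * b ≤ a) (h2 : (Q - 1) * a ≤ b) (h3 : 1 ≤ (Q - 1) * β)
    (h4 : 1 + q < P * q) : False := by
  have Q1 : 0 < Q - 1 := pos_of_mul_pos_left (by linarith) (by linarith : 0 ≤ β)
  have w3 : 1 + β < P := lt_of_mul_lt_mul_right (a := q) (by linarith) q0
  have w4 : β < β * P - 1 := by nlinarith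
  linarith [fin b0 h1 h2 Q1.le, mul_lt_mul_of_pos_right w4 Q1]

lemma LJ {a b P Q : ℝ} (b1 : 1 < β) (q0 : 0 ≤ q) (q1 : β * q ≤ 1) (b0 : 0 < b)
    (h1 : (P - 1) * b ≤ a) (h2 : (β * Q - 1) * a ≤ b) (h3 : 1 ≤ (Q - 1) * β)
    (h4 : 1 + q - β * a ≤ P * q) (h5 : β ^ 2 * a < β - 1) : False := by
  have w3 : 1 < (P - 1) * (β * q) := by
    linarith [mul_le_mul_of_nonneg_left h4 (by linarith : 0 ≤ β)]
  have w4 : 1 < P - 1 := by
    by_contra hn
    nlinarith [mul_nonneg (by linarith : 0 ≤ β) q0]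
  have w5 : 1 < β * Q - 1 := by linarith
  linarith [fin b0 h1 h2 (by linarith), mul_lt_mul'' w4 w5 zero_le_one zero_le_one]

lemma NN {a b P Q G : ℝ} (b1 : 1 < β) (q1 : β * q ≤ 1) (b0 : 0 < b) (P1 : 1 < P) (Q1 : 1 < Q)
    (h1 : (P - 1) * (β * b) ≤ 1 + q - P * q) (h2 : 1 + q - P * q ≤ β * a)
    (h3 : (Q - 1) * (β * a) ≤ G) (h4 : G ≤ β * b)
    (h5 : β * (G + (1 + q)) = Q * (β * (1 + q) - 1)) :
    β * q = 1 ∧ G = β * b ∧ (P - 1) * (β * b) = 1 + q - P * q := by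
  have c0 : 0 < β * b := by positivity
  have Q0 : 0 < Q - 1 := by linarith
  have z5 := fin c0 (h1.trans h2) (h3.trans h4) Q0.le
  have z1 := (mul_le_mul_of_nonneg_left h2 Q0.le).trans h3
  have z6 : Q ≤ (Q - 1) * P * (β * q) := by
    linarith [mul_le_mul_of_nonneg_left z1 (by linarith : 0 ≤ β)]
  have z7 : 0 < (Q - 1) * P := by positivity
  have z8 : β * q = 1 := le_antisymm q1 (le_of_mul_le_mul_left (by linarith) z7)
  rw [z8] at z6
  have z9 : (P - 1) * (Q - 1) = 1 := by linarith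
  have y0 := mul_le_mul_of_nonneg_left h1 Q0.le
  have y1 : (Q - 1) * ((P - 1) * (β * b)) = β * b := by linear_combination β * b * z9
  refine ⟨z8, by linarith, le_antisymm h1 (le_of_mul_le_mul_left ?_ Q0)⟩
  linarith

lemma small {a v Y : ℝ} (b1 : 1 < β) (b2 : β ^ 2 ≤ 2) (q1 : β * q ≤ 1) (a0 : 0 < a)
    (hv : v = β * (1 + q) - 1) (Y1 : 1 ≤ Y) (h : 1 + q < β * (Y * (v - β ^ 2 * a)))
    (h2 : Y = 1 ∨ Y * v < 1 + q) : β ^ 2 * a < β - 1 := by
  have b0 : 0 < β := by linarith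
  have v1 : v ≤ β := by linarith
  refine lt_of_mul_lt_mul_left (a := β) ?_ b0.le
  rcases h2 with rfl | h2
  · have w1 := mul_le_mul_of_nonneg_left q1 (by nlinarith : 0 ≤ β ^ 2 - 1)
    have w2 : β * (β * (β ^ 2 * a)) < β ^ 3 - β - 1 := by
      have := mul_lt_mul_of_pos_left h b0
      rw [hv] at this
      linarith
    have w3 : β * (β ^ 2 * a) < β * (β * (β ^ 2 * a)) := by
      have : 0 < β * (β ^ 2 * a) := by positivity
      nlinarith
    nlinarith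
  · have w : Y * (β * (β ^ 2 * a)) < Y * ((β - 1) * v) := by linarith
    have := lt_of_mul_lt_mul_left w (by linarith)
    nlinarith

lemma full (S : Sys β q K) {x y : ℝ} (hxy : x < y) (h : Icc x y ⊆ K) : Icc q (1 + q) ⊆ K := by
  obtain ⟨s, t, hst, hJ, hm⟩ := maxi S.cp hxy h
  have b1 := S.b1
  have b0 : 0 < β := by linarith
  have q0 := S.q0
  have q1 := S.q1
  have gr : ∀ z, 0 < z → z < β * z := fun z hz => by nlinarith
  have mo : ∀ {z w}, z < w → β * z < β * w := fun h => mul_lt_mul_of_pos_left h b0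
  have mo' : ∀ {z w}, z ≤ w → β * z ≤ β * w := fun h => mul_le_mul_of_nonneg_left h b0.le
  obtain ⟨c, hc⟩ : ∃ c, β * c = 1 + q := ⟨(1 + q) / β, mul_div_cancel₀ _ b0.ne'⟩
  have ct : c < t := by
    by_contra hn
    have := hm _ _ (mo hst).le (S.L s t hst (by linarith [mo' (not_lt.1 hn)]) hJ)
    linarith [gr _ (sub_pos.2 hst)]
  have sc : s < c := by
    by_contra hn
    have := hm _ _ (by linarith [mo hst]) (S.R s t hst (by linarith [mo' (not_lt.1 hn)]) hJ)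
    linarith [gr _ (sub_pos.2 hst)]
  have M : ∀ a b, β * a ≤ 1 + q → 1 + q ≤ β * b → Icc a b ⊆ K → s ≤ a ∧ b ≤ t := by
    intro a b h1 h2 h3
    have ac : a ≤ c := le_of_mul_le_mul_left (by linarith) b0
    have cb : c ≤ b := le_of_mul_le_mul_left (by linarith) b0
    have := hm a t (by linarith) (uni h3 hJ (by linarith))
    have := hm s b (by linarith) (uni hJ h3 (by linarith))
    constructor <;> linarith
  have r1 := S.R c t ct hc.ge ((Icc_subset_Icc_left sc.le).trans hJ)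
  have l1 := S.L s c sc hc.le ((Icc_subset_Icc_right ct.le).trans hJ)
  rw [hc] at r1 l1
  rw [add_sub_cancel_left] at r1
  have r2 : q < β * t - 1 := by linarith [mo ct]
  by_cases hA : β * (β * s) ≤ 1 + q
  · have := (M _ _ hA (gr _ (by linarith)).le l1).2
    exact cover S r2 (by linarith [mo' this]) r1
  push Not at hA
  have l2 := S.R _ _ (by linarith [mo sc]) hA.le l1
  obtain ⟨v, hv⟩ : ∃ v, v = β * (1 + q) - 1 := ⟨_, rfl⟩
  rw [← hv] at l2
  have v0 : 0 < v := by linarith [gr (1 + q) (by linarith)]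
  have v1 : v ≤ β := by linarith
  have l3 : β * (β * s) - 1 < v := by have := mo (mo sc); rw [hc] at this; linarith
  obtain ⟨j, j1, j2, -⟩ := run S r2 (by linarith) r1
  obtain ⟨i, i1, i2, i3⟩ := run S l3 v0 l2
  have X1 : 1 ≤ β ^ j := one_le_pow₀ b1.le
  have Y1 : 1 ≤ β ^ i := one_le_pow₀ b1.le
  obtain ⟨a, rfl⟩ : ∃ a, s = c - a := ⟨c - s, by ring⟩
  obtain ⟨b, rfl⟩ : ∃ b, t = c + b := ⟨t - c, by ring⟩
  have a0 : 0 < a := by linarith
  have b0' : 0 < b := by linarith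
  have e1 : β * (c + b) - 1 = q + β * b := by linarith
  have e2 : β * (β * (c - a)) - 1 = v - β ^ 2 * a := by rw [hv, ← hc]; ring
  rw [e1] at j1 j2 r1
  rw [e2] at i1
  have n1 : β ^ j * q < β ^ j * (q + β * b) :=
    mul_lt_mul_of_pos_left (by linarith [mul_pos b0 b0']) (by linarith)
  have n2 : β ^ i * (v - β ^ 2 * a) < β ^ i * v :=
    mul_lt_mul_of_pos_left (by linarith [mul_pos (pow_pos b0 2) a0]) (by linarith)
  have m1 := hm _ _ n1.le j1
  have m2 := hm _ _ n2.le i1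
  have k3 : 1 ≤ (β ^ 2 * β ^ i - 1) * v := by linarith [mo' i2]
  have Q1 : 0 < β ^ 2 * β ^ i - 1 := pos_of_mul_pos_left (by linarith) v0.le
  have k4 := k3.trans (mul_le_mul_of_nonneg_left v1 Q1.le)
  by_cases hR : 1 + q < β * (β ^ j * q)
  · have := hm _ _ (by linarith [mo n1]) (S.R _ _ n1 hR.le j1)
    exact (RJ (a := a) (P := β * β ^ j) b1 q0 q1 b0' (by linarith) (by linarith) k4
      (by linarith)).elim
  push Not at hR
  obtain ⟨u1, u2⟩ := M _ _ hR j2 j1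
  by_cases hL : 1 + q < β * (β ^ i * (v - β ^ 2 * a))
  · have := hm _ _ (by linarith [mo n2]) (S.R _ _ n2 hL.le i1)
    exact (LJ (a := a) (P := β * β ^ j) b1 q0 q1 b0' (by linarith) (by linarith) k4
      (by linarith [mo' u1]) (small b1 S.b2 q1 a0 hv Y1 hL (i3.imp_left fun h => by simp [h]))).elim
  push Not at hL
  obtain ⟨u4, u5⟩ := M _ _ hL i2 i1
  obtain ⟨z8, y1, y2⟩ := NN (a := a) (P := β * β ^ j) (Q := β ^ 2 * β ^ i)
    (G := β * (β ^ i * v) - (1 + q)) b1 q1 b0' (by linarith [gr (β ^ j) (by linarith)])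
    (by linarith) (by linarith [mo' u2]) (by linarith [mo' u1]) (by linarith [mo' u4])
    (by linarith [mo' u5]) (by rw [← hv]; ring)
  have v2 : v = β := by linarith
  rw [v2] at y1
  refine cover S (by linarith [mul_pos b0 b0']) ?_ r1
  have y3 : β ^ j * (q + β * b) = β ^ (i + 1) := by
    apply mul_left_cancel₀ b0.ne'
    rw [pow_succ]
    linarith
  have y4 : β ^ j < β ^ (i + 2) := by
    have : β * (β ^ j * q) = β ^ j := by linear_combination β ^ j * z8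
    rw [pow_succ, pow_succ]
    linarith [mul_pos b0 b0']
  have y5 : β ^ j ≤ β ^ (i + 1) :=
    pow_le_pow_right₀ b1.le (by have := (pow_lt_pow_iff_right₀ b1).1 y4; omega)
  rw [z8]
  exact le_of_mul_le_mul_left (a := β ^ j) (by linarith) (by linarith)

structure Sys0 (β α : ℝ) (K : Set ℝ) : Prop where
  cp : IsCompact K
  L : ∀ x y, x < y → β * y + α ≤ 1 → Icc x y ⊆ K → Icc (β * x + α) (β * y + α) ⊆ K
  R : ∀ x y, x < y → 1 ≤ β * x + α → Icc x y ⊆ K → Icc (β * x + α - 1) (β * y + α - 1) ⊆ K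

lemma full0 {α : ℝ} (S : Sys0 β α K) (b1 : 1 < β) (b2 : β ^ 2 ≤ 2) (a0 : 0 ≤ α) (a1 : α + β ≤ 2)
    (a2 : β * α ≤ β - 1) {x y : ℝ} (hxy : x < y) (h : Icc x y ⊆ K) : Icc 0 1 ⊆ K := by
  obtain ⟨q, hq⟩ : ∃ q, q * (β - 1) = α := ⟨α / (β - 1), div_mul_cancel₀ _ (by linarith)⟩
  have q0 : 0 ≤ q := nonneg_of_mul_nonneg_left (hq ▸ a0) (by linarith : 0 < β - 1)
  have sh : ∀ a b, Icc a b ⊆ {u | u - q ∈ K} ↔ Icc (a - q) (b - q) ⊆ K := fun a b =>
    ⟨fun h z hz => by simpa using h (a := z + q) ⟨by linarith [hz.1], by linarith [hz.2]⟩,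
      fun h z hz => h ⟨by linarith [hz.1], by linarith [hz.2]⟩⟩
  have S' : Sys β q {u | u - q ∈ K} := by
    refine ⟨b1, b2, q0, le_of_mul_le_mul_right (a := β - 1) (by nlinarith) (by linarith),
      by linarith, (Homeomorph.subRight q).isCompact_preimage.2 S.cp, fun x y h1 h2 h3 => ?_,
      fun x y h1 h2 h3 => ?_⟩
    · have := S.L _ _ (by linarith) (by linarith) ((sh _ _).1 h3)
      rw [sh]
      convert this using 2 <;> linarith
    · have := S.R _ _ (by linarith) (by linarith) ((sh _ _).1 h3)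
      rw [sh]
      convert this using 2 <;> linarith
  simpa using (sh _ _).1 (full S' (x := x + q) (y := y + q) (by linarith)
    ((sh _ _).2 (by simpa using h)))

lemma mir {a b : ℝ} : Icc a b ⊆ {u | 1 - u ∈ K} ↔ Icc (1 - b) (1 - a) ⊆ K :=
  ⟨fun h z hz => by simpa using h (a := 1 - z) ⟨by linarith [hz.2], by linarith [hz.1]⟩,
    fun h z hz => h ⟨by linarith [hz.2], by linarith [hz.1]⟩⟩

lemma Sys0.mirror {α : ℝ} (S : Sys0 β α K) : Sys0 β (2 - β - α) {u | 1 - u ∈ K} := by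
  refine ⟨(Homeomorph.subLeft (1 : ℝ)).isCompact_preimage.2 S.cp, fun x y h1 h2 h3 => ?_,
    fun x y h1 h2 h3 => ?_⟩
  · have := S.R _ _ (by linarith) (by linarith) (mir.1 h3)
    rw [mir]
    convert this using 2 <;> ring
  · have := S.L _ _ (by linarith) (by linarith) (mir.1 h3)
    rw [mir]
    convert this using 2 <;> ring

lemma push {W : Set ℝ} {x y γ : ℝ} (b0 : 0 < β) (hxy : x < y) (h : Icc x y ⊆ closure W)
    (hW : ∀ w ∈ Ioo x y ∩ W, β * w + γ ∈ W) : Icc (β * x + γ) (β * y + γ) ⊆ closure W := by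
  have h1 : Icc x y ⊆ closure (Ioo x y ∩ W) := by
    rw [← closure_Ioo hxy.ne]
    exact closure_minimal (fun z hz => isOpen_Ioo.inter_closure ⟨hz, h (Ioo_subset_Icc_self hz)⟩)
      isClosed_closure
  intro z hz
  have h2 := map_mem_closure (f := fun w => β * w + γ) (by fun_prop) (h1 (a := (z - γ) / β)
    ⟨by rw [le_div_iff₀ b0]; linarith [hz.1], by rw [div_le_iff₀ b0]; linarith [hz.2]⟩) hW
  rwa [mul_div_cancel₀ _ b0.ne', sub_add_cancel] at h2

theorem result (α β : ℝ) (b1 : 1 < β) (b2 : β ≤ √2) (a0 : 0 ≤ α) (a1 : α + β ≤ 2)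
    (hC : α ≤ 1 - 1 / β ∨ 1 + 1 / β - β ≤ α) (U V : Set ℝ) (hU : IsOpen U) (hV : IsOpen V)
    (hU' : (U ∩ Ico 0 1).Nonempty) (hV' : (V ∩ Ico 0 1).Nonempty) :
    ∃ n : ℕ, ((T α β)^[n] '' (U ∩ Ico 0 1) ∩ (V ∩ Ico 0 1)).Nonempty := by
  have b0 : 0 < β := by linarith
  have b3 : β ^ 2 ≤ 2 := by
    have := pow_le_pow_left₀ b0.le b2 2
    rwa [Real.sq_sqrt (by norm_num)] at this
  set W := ⋃ n : ℕ, (T α β)^[n] '' (U ∩ Ico 0 1) with hW
  have W1 : W ⊆ Ico 0 1 := by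
    rintro _ ⟨_, ⟨n, rfl⟩, x, hx, rfl⟩
    rcases n with _ | n
    · exact hx.2
    · rw [Function.iterate_succ_apply']
      exact ⟨Int.fract_nonneg _, Int.fract_lt_one _⟩
  have W2 : ∀ w ∈ W, T α β w ∈ W := by
    rintro _ ⟨_, ⟨n, rfl⟩, x, hx, rfl⟩
    exact mem_iUnion.2 ⟨n + 1, x, hx, Function.iterate_succ_apply' _ _ _⟩
  have S : Sys0 β α (closure W) := by
    refine ⟨isCompact_Icc.of_isClosed_subset isClosed_closure
      (closure_minimal (W1.trans Ico_subset_Icc_self) isClosed_Icc), fun x y h1 h2 h3 => ?_,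
      fun x y h1 h2 h3 => ?_⟩
    · refine push b0 h1 h3 fun w hw => ?_
      have := W2 w hw.2
      rwa [T, Int.fract_eq_self.2 ⟨by nlinarith [(W1 hw.2).1], by nlinarith [hw.1.2]⟩] at this
    · simp only [add_sub_assoc]
      refine push b0 h1 h3 fun w hw => ?_
      have := W2 w hw.2
      rwa [T, ← Int.fract_sub_one, add_sub_assoc, Int.fract_eq_self.2
        ⟨by nlinarith [hw.1.1], by nlinarith [(W1 hw.2).2]⟩] at this
  obtain ⟨x, hx, hx'⟩ := hU'
  obtain ⟨y, hy, hy'⟩ : ∃ y, x < y ∧ Icc x y ⊆ U ∩ Ico 0 1 := by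
    obtain ⟨y, h1, h2⟩ := exists_Ico_subset_of_mem_nhds'
      (Filter.inter_mem (hU.mem_nhds hx) (Iio_mem_nhds hx'.2)) (lt_add_one x)
    refine ⟨(x + y) / 2, by linarith [h1.1], fun z hz => ?_⟩
    have := h2 (a := z) ⟨hz.1, by linarith [hz.2, h1.1]⟩
    exact ⟨this.1, hx'.1.trans hz.1, this.2⟩
  have h0 : Icc x y ⊆ closure W :=
    fun z hz => subset_closure (mem_iUnion.2 ⟨0, mem_image_of_mem _ (hy' hz)⟩)
  have e : β * (1 / β) = 1 := mul_one_div_cancel b0.ne'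
  have hall : Icc 0 1 ⊆ closure W := by
    rcases hC with h | h
    · exact full0 S b1 b3 a0 a1 (by nlinarith) hy h0
    · simpa using mir.1 (full0 S.mirror b1 b3 (by linarith) (by linarith) (by nlinarith)
        (x := 1 - y) (y := 1 - x) (by linarith) (mir.2 (by simpa using h0)))
  obtain ⟨z, hz, hz'⟩ := hV'
  obtain ⟨w, hw, hw'⟩ := mem_closure_iff.1 (hall (Ico_subset_Icc_self hz')) V hV hz
  obtain ⟨n, hn⟩ := mem_iUnion.1 hw'
  exact ⟨n, w, hn, hw, W1 hw'⟩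

end Pool.Agent.Results.MP_ea58a7_an.Trans
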